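import Pool.Agent.OPG.Stmts
import Pool.Agent.Helper69_Weyl.Divisor

set_option autoImplicit false

/-!
# Row FIN: from the main inequality to `M^(1-δ)`
-/

namespace Pool.Agent.OPG.H34

open Pool.Agent.OPG Finset

/-- The largest odd `R`-th root. -/
lemma exists_root (R C M : ℕ) (hR : 1 ≤ R) (hM : (C + 1) ^ R ≤ M) :
    ∃ P : ℕ, C ≤ P ∧ Odd P ∧ P ^ R ≤ M ∧ M ≤ 3 ^ R * P ^ R := by
  classical
  have hR0 : R ≠ 0 := by omega
  obtain ⟨Q, hQ⟩ : ∃ Q : ℕ, Q = Nat.findGreatest (fun n => n ^ R ≤ M) M := ⟨_, rfl⟩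
  have hCM : C + 1 ≤ M := le_trans (Nat.le_self_pow hR0 _) hM
  have h1 : Q ^ R ≤ M := by
    rw [hQ]
    exact Nat.findGreatest_spec (P := fun n => n ^ R ≤ M) hCM hM
  have h2 : C + 1 ≤ Q := by
    rw [hQ]
    exact Nat.le_findGreatest (P := fun n => n ^ R ≤ M) hCM hM
  have h3 : M < (Q + 1) ^ R := by
    by_contra hcon
    push Not at hcon
    have h4 : Q + 1 ≤ M := le_trans (Nat.le_self_pow hR0 _) hcon
    have h5 := Nat.findGreatest_is_greatest (P := fun n => n ^ R ≤ M) (n := M) (k := Q + 1)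
      (by rw [← hQ]; omega) h4
    exact h5 hcon
  rcases Nat.even_or_odd Q with he | ho
  · refine ⟨Q - 1, by omega, ?_, ?_, ?_⟩
    · obtain ⟨c, hc⟩ := he
      exact ⟨c - 1, by omega⟩
    · exact le_trans (Nat.pow_le_pow_left (by omega) R) h1
    · have h6 : 1 ≤ Q - 1 := by
        obtain ⟨c, hc⟩ := he
        omega
      rw [← Nat.mul_pow]
      exact le_trans h3.le (Nat.pow_le_pow_left (by omega) R)
  · refine ⟨Q, by omega, ho, h1, ?_⟩
    rw [← Nat.mul_pow]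
    exact le_trans h3.le (Nat.pow_le_pow_left (by omega) R)

/-- Row FIN. -/
theorem fin (h : MaiStmt) : FinStmt := by
  intro δ n1 hδ hn1
  obtain ⟨R, hR⟩ := exists_nat_ge (max 28 (56 / δ))
  have hR28 : 28 ≤ R := by
    have : (28 : ℝ) ≤ R := le_trans (le_max_left _ _) hR
    exact_mod_cast this
  have hR56 : 56 / δ ≤ R := le_trans (le_max_right _ _) hR
  have hRpos : (0 : ℝ) < R := by
    have : (28 : ℝ) ≤ R := by exact_mod_cast hR28
    linarith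
  have hRd : 14 / (R : ℝ) ≤ δ / 4 := by
    rw [div_le_iff₀ hδ] at hR56
    rw [div_le_iff₀ hRpos]
    nlinarith
  obtain ⟨C, hC1, hC⟩ := h R n1 hR28 hn1
  have hδ8 : 0 < δ / 8 := by positivity
  obtain ⟨D, hD1, hD⟩ := Pool.Agent.Helper69_Weyl.exists_card_divisors_le (δ / 8) hδ8
  obtain ⟨K, hK⟩ : ∃ K : ℝ, K = C * (D * (4 : ℝ) ^ (δ / 8)) := ⟨_, rfl⟩
  have hev : ∀ᶠ M : ℕ in Filter.atTop, K ≤ (M : ℝ) ^ (δ / 2) :=
    ((tendsto_rpow_atTop (by positivity : (0 : ℝ) < δ / 2)).comp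
      tendsto_natCast_atTop_atTop).eventually_ge_atTop K
  obtain ⟨M1, hM1⟩ := Filter.eventually_atTop.1 hev
  refine ⟨max (max 1 M1) ((C + 1) ^ R), ?_⟩
  intro M f e hM hMe hf hfn
  have hMone : 1 ≤ M := le_trans (le_trans (le_max_left _ _) (le_max_left _ _)) hM
  have hMM1 : M1 ≤ M := le_trans (le_trans (le_max_right _ _) (le_max_left _ _)) hM
  have hMC : (C + 1) ^ R ≤ M := le_trans (le_max_right _ _) hM
  have hMR1 : (1 : ℝ) ≤ M := by exact_mod_cast hMone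
  have hM0 : (0 : ℝ) < M := by linarith
  obtain ⟨P, hCP, hPo, hP1, hP2⟩ := exists_root R C M (by omega) hMC
  have hmain := hC P M f e hCP hPo hMe hP1 hP2 hf hfn
  have hmainR : (M : ℝ) ≤ C * (P : ℝ) ^ 14 * (DS f e M : ℝ) := by exact_mod_cast hmain
  -- the divisor bound
  have hDS : (DS f e M : ℝ) ≤
      ((NS f e M).card : ℝ) * (D * ((4 : ℝ) ^ (δ / 8) * (M : ℝ) ^ (δ / 4))) := by
    unfold DS
    rw [Nat.cast_sum]
    have hle : ∀ n ∈ NS f e M, ((n.divisors.card : ℕ) : ℝ) ≤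
        D * ((4 : ℝ) ^ (δ / 8) * (M : ℝ) ^ (δ / 4)) := by
      intro n hn
      unfold NS at hn
      rw [Finset.mem_filter, Finset.mem_Ioo] at hn
      have hn0 : n ≠ 0 := by
        intro h0
        rw [h0] at hn
        exact absurd hn.2.1 (by decide)
      have hnle : (n : ℝ) ≤ 4 * (M : ℝ) ^ 2 := by
        have h1 : (n : ℝ) < ((M : ℝ) + 1) ^ 2 := by exact_mod_cast hn.1.2
        nlinarith
      have h2 : (n : ℝ) ^ (δ / 8) ≤ (4 * (M : ℝ) ^ 2) ^ (δ / 8) :=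
        Real.rpow_le_rpow (by positivity) hnle hδ8.le
      have h3 : (4 * (M : ℝ) ^ 2) ^ (δ / 8) = (4 : ℝ) ^ (δ / 8) * (M : ℝ) ^ (δ / 4) := by
        rw [Real.mul_rpow (by norm_num) (by positivity), ← Real.rpow_natCast,
          ← Real.rpow_mul hM0.le]
        congr 2
        push_cast
        ring
      rw [h3] at h2
      exact (hD n hn0).trans (mul_le_mul_of_nonneg_left h2 (by linarith))
    have := Finset.sum_le_card_nsmul (NS f e M) (fun n => ((n.divisors.card : ℕ) : ℝ)) _ hle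
    rwa [nsmul_eq_mul] at this
  -- the power of `P`
  have hP14 : (P : ℝ) ^ 14 ≤ (M : ℝ) ^ (δ / 4) := by
    have hPR : ((P : ℝ) ^ R) ≤ M := by exact_mod_cast hP1
    have h1 : ((P : ℝ) ^ R) ^ (14 / (R : ℝ)) ≤ (M : ℝ) ^ (14 / (R : ℝ)) :=
      Real.rpow_le_rpow (by positivity) hPR (by positivity)
    have h2 : ((P : ℝ) ^ R) ^ (14 / (R : ℝ)) = (P : ℝ) ^ 14 := by
      rw [← Real.rpow_natCast, ← Real.rpow_mul (by positivity)]
      have h3 : (R : ℝ) * (14 / (R : ℝ)) = ((14 : ℕ) : ℝ) := by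
        push_cast
        field_simp
      rw [h3, Real.rpow_natCast]
    rw [h2] at h1
    exact h1.trans (Real.rpow_le_rpow_of_exponent_le hMR1 hRd)
  have hA : (0 : ℝ) < (M : ℝ) ^ (δ / 4) := by positivity
  have hA2 : (M : ℝ) ^ (δ / 4) * (M : ℝ) ^ (δ / 4) = (M : ℝ) ^ (δ / 2) := by
    rw [← Real.rpow_add hM0]
    congr 1
    ring
  have hA3 : (M : ℝ) ^ (δ / 2) * (M : ℝ) ^ (δ / 2) = (M : ℝ) ^ δ := by
    rw [← Real.rpow_add hM0]
    congr 1
    ring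
  have hN0 : (0 : ℝ) ≤ ((NS f e M).card : ℝ) := Nat.cast_nonneg _
  have hC0 : (0 : ℝ) ≤ C := Nat.cast_nonneg _
  have hD0 : (0 : ℝ) ≤ D := by linarith
  have hstep : (M : ℝ) ≤ (K * (M : ℝ) ^ (δ / 2)) * ((NS f e M).card : ℝ) := by
    calc (M : ℝ) ≤ C * (P : ℝ) ^ 14 * (DS f e M : ℝ) := hmainR
      _ ≤ C * (M : ℝ) ^ (δ / 4) *
          (((NS f e M).card : ℝ) * (D * ((4 : ℝ) ^ (δ / 8) * (M : ℝ) ^ (δ / 4)))) := by
          apply mul_le_mul _ hDS (Nat.cast_nonneg _) (by positivity)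
          exact mul_le_mul_of_nonneg_left hP14 hC0
      _ = (K * ((M : ℝ) ^ (δ / 4) * (M : ℝ) ^ (δ / 4))) * ((NS f e M).card : ℝ) := by
          rw [hK]; ring
      _ = (K * (M : ℝ) ^ (δ / 2)) * ((NS f e M).card : ℝ) := by rw [hA2]
  have hstep2 : (M : ℝ) ≤ (M : ℝ) ^ δ * ((NS f e M).card : ℝ) := by
    refine hstep.trans (mul_le_mul_of_nonneg_right ?_ hN0)
    rw [← hA3]
    exact mul_le_mul_of_nonneg_right (hM1 M hMM1) (by positivity)
  have hsplit : (M : ℝ) = (M : ℝ) ^ δ * (M : ℝ) ^ (1 - δ) := by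
    rw [← Real.rpow_add hM0]
    have : δ + (1 - δ) = 1 := by ring
    rw [this, Real.rpow_one]
  have hMd : (0 : ℝ) < (M : ℝ) ^ δ := by positivity
  have hfin : (M : ℝ) ^ δ * (M : ℝ) ^ (1 - δ) ≤ (M : ℝ) ^ δ * ((NS f e M).card : ℝ) := by
    rw [← hsplit]
    exact hstep2
  exact le_of_mul_le_mul_left hfin hMd

end Pool.Agent.OPG.H34
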